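import Mathlib

open Finset

namespace H89GC.Content

theorem content_multiset {n : ℕ} (i : Fin n → ℕ) :
    Finsupp.toMultiset (∑ k, Finsupp.single (i k) 1) = univ.val.map i := by
  rw [Finsupp.toMultiset_sum]
  simp only [Finsupp.toMultiset_single, one_smul]
  have h := Multiset.sum_map_singleton (univ.val.map i)
  rw [Multiset.map_map] at h
  exact h

theorem content_unique {n : ℕ} (i i' : Fin n → ℕ) (h1 : Monotone i) (h2 : Monotone i')
    (h : ∑ k, Finsupp.single (i k) 1 = ∑ k, Finsupp.single (i' k) 1) : i = i' := by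
  have h3 := content_multiset i
  rw [h, content_multiset i', Fin.univ_val_map, Fin.univ_val_map, Multiset.coe_eq_coe] at h3
  exact List.ofFn_injective (h3.symm.eq_of_pairwise' h1.sortedLE_ofFn.pairwise
      h2.sortedLE_ofFn.pairwise)

theorem content_exists {n : ℕ} (e : ℕ →₀ ℕ) (h : ∑ x ∈ e.support, e x = n) :
    ∃ i : Fin n → ℕ, Monotone i ∧ ∑ k, Finsupp.single (i k) 1 = e := by
  obtain ⟨l, hl⟩ := Quot.exists_rep (Finsupp.toMultiset e)
  have hcard : l.length = n := by
    have h1 := Finsupp.card_toMultiset e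
    rw [← hl] at h1
    have h2 : Multiset.card (Quot.mk _ l : Multiset ℕ) = l.length := rfl
    rw [h2] at h1
    rw [h1, ← h]
    rfl
  subst hcard
  refine ⟨l.get ∘ Tuple.sort l.get, Tuple.monotone_sort _, ?_⟩
  have h3 := content_multiset (l.get ∘ Tuple.sort l.get)
  rw [Fin.univ_val_map] at h3
  have h1 := Equiv.Perm.ofFn_comp_perm (Tuple.sort l.get) l.get
  rw [List.ofFn_get] at h1
  have h4 : Finsupp.toMultiset (∑ k, Finsupp.single ((l.get ∘ Tuple.sort l.get) k) 1) =
      Finsupp.toMultiset e := by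
    rw [h3, ← hl]
    exact Quot.sound h1
  have h5 := congrArg Multiset.toFinsupp h4
  rwa [Finsupp.toMultiset_toFinsupp, Finsupp.toMultiset_toFinsupp] at h5

theorem content_apply {n : ℕ} (i : Fin n → ℕ) (x : ℕ) :
    (∑ k, Finsupp.single (i k) 1 : ℕ →₀ ℕ) x = #{v | i v = x} := by
  rw [Finsupp.finsetSum_apply, Finset.card_filter]
  refine Finset.sum_congr rfl fun k _ => ?_
  rw [Finsupp.single_apply]

theorem content_degree {n : ℕ} (i : Fin n → ℕ) (e : ℕ →₀ ℕ)
    (h : ∑ k, Finsupp.single (i k) 1 = e) : ∑ x ∈ e.support, e x = n := by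
  have h1 := Finsupp.card_toMultiset e
  rw [← h, content_multiset, Multiset.card_map, Finset.card_val, Finset.card_univ,
    Fintype.card_fin, h] at h1
  rw [h1]
  rfl

end H89GC.Content
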