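import Mathlib
import Pool.Agent.H89.GC.Content

open Finset

namespace H89GC.Gessel

open H89GC.Content

/-- Standard Young tableaux of shape `μ`, as numberings `q` of the cells: `q a` is the cell
containing the entry `a`. -/
def stdSet (μ : YoungDiagram) (n : ℕ) : Finset (Fin n ≃ μ.cells) :=
  univ.filter (fun q => ∀ a b : Fin n, (q a).1.1 ≤ (q b).1.1 → (q a).1.2 ≤ (q b).1.2 → a ≤ b)

/-- Strict ascent places of a sequence. -/
def asc {n : ℕ} (r : Fin n → ℕ) : Finset ℕ :=
  (Icc 1 (n - 1)).filter (fun j => ∃ (h : j < n) (_ : 1 ≤ j), r ⟨j - 1, by omega⟩ < r ⟨j, h⟩)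

theorem mem_asc {n : ℕ} (r : Fin n → ℕ) (j : ℕ) (h1 : 1 ≤ j) (h : j < n) :
    j ∈ asc r ↔ r ⟨j - 1, by omega⟩ < r ⟨j, h⟩ := by
  rw [asc, mem_filter, mem_Icc]
  constructor
  · rintro ⟨_, _, _, h2⟩; exact h2
  · intro h2; exact ⟨⟨h1, by omega⟩, h, h1, h2⟩

theorem asc_sub {n : ℕ} (r : Fin n → ℕ) : asc r ⊆ Icc 1 (n - 1) := filter_subset _ _

/-- rows of the entries -/
def rowf {μ : YoungDiagram} {n : ℕ} (q : Fin n ≃ μ.cells) : Fin n → ℕ := fun a => (q a).1.1

/-- Descent set: `j` such that `j+1` is in a strictly lower row (1-based numbering). -/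
def desQ {μ : YoungDiagram} {n : ℕ} (q : Fin n ≃ μ.cells) : Finset ℕ := asc (rowf q)

/-- Along a block of equal entries of `r` the rows weakly decrease. -/
theorem rows_anti {n : ℕ} (w r : Fin n → ℕ) (hr : Monotone r) (h : asc w ⊆ asc r)
    (a b : Fin n) (hab : a ≤ b) (he : r a = r b) : w b ≤ w a := by
  have key : ∀ d : ℕ, ∀ b : Fin n, (b : ℕ) = a + d → r a = r b → w b ≤ w a := by
    intro d
    induction d with
    | zero =>
      intro b hb _
      have : b = a := Fin.ext (by simpa using hb)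
      rw [this]
    | succ d ih =>
      intro b hb he
      have hb' : (a : ℕ) + d < n := by have := b.2; omega
      have h1 : r a = r ⟨a + d, hb'⟩ := by
        apply le_antisymm
        · apply hr; rw [Fin.le_def]; simp
        · rw [he]; apply hr; rw [Fin.le_def]; simp only; omega
      have h2 := ih ⟨a + d, hb'⟩ rfl h1
      refine le_trans ?_ h2
      by_contra hc
      have hbn : (a : ℕ) + d + 1 < n := by have := b.2; omega
      have eb : b = ⟨a + d + 1, hbn⟩ := Fin.ext (by simp only; omega)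
      have h3 : a + d + 1 ∈ asc w := by
        rw [mem_asc w _ (by omega) hbn]
        rw [eb] at hc
        simpa using hc
      have h4 := h h3
      rw [mem_asc r _ (by omega) hbn] at h4
      rw [← eb] at h4
      simp only [Nat.add_sub_cancel] at h4
      omega
  exact key (b - a) b (by rw [Fin.le_def] at hab; omega) he

variable {μ : YoungDiagram} {n : ℕ}

/-- The SSYT defined by a standard tableau and a monotone sequence. -/
def toT (r : Fin n → ℕ) (hr : Monotone r) (q : Fin n ≃ μ.cells) (hq : q ∈ stdSet μ n)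
    (hdes : desQ q ⊆ asc r) : SemistandardYoungTableau μ where
  entry i j := if h : (i, j) ∈ μ.cells then r (q.symm ⟨(i, j), h⟩) else 0
  row_weak' := by
    intro i j1 j2 hj hc
    have hc' : (i, j2) ∈ μ.cells := hc
    have hc1 : (i, j1) ∈ μ.cells := μ.up_left_mem le_rfl hj.le hc
    rw [dif_pos hc1, dif_pos hc']
    apply hr
    rw [stdSet, mem_filter] at hq
    apply hq.2
    · simp
    · simpa using hj.le
  col_strict' := by
    intro i1 i2 j hi hc
    have hc' : (i2, j) ∈ μ.cells := hc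
    have hc1 : (i1, j) ∈ μ.cells := μ.up_left_mem hi.le le_rfl hc
    rw [dif_pos hc1, dif_pos hc']
    rw [stdSet, mem_filter] at hq
    have hle : q.symm ⟨(i1, j), hc1⟩ ≤ q.symm ⟨(i2, j), hc'⟩ := by
      apply hq.2
      · simpa using hi.le
      · simp
    rcases (hr hle).eq_or_lt with h | h
    · exfalso
      have := rows_anti (rowf q) r hr hdes _ _ hle h
      simp only [rowf, Equiv.apply_symm_apply] at this
      omega
    · exact h
  zeros' := by
    intro i j h
    have h' : (i, j) ∉ μ.cells := h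
    rw [dif_neg h']

theorem toT_cell (r : Fin n → ℕ) (hr : Monotone r) (q : Fin n ≃ μ.cells) (hq : q ∈ stdSet μ n)
    (hdes : desQ q ⊆ asc r) (a : Fin n) :
    toT r hr q hq hdes (q a).1.1 (q a).1.2 = r a := by
  have h : ((q a).1.1, (q a).1.2) ∈ μ.cells := (q a).2
  show (if h : ((q a).1.1, (q a).1.2) ∈ μ.cells then r (q.symm ⟨((q a).1.1, (q a).1.2), h⟩)
    else 0) = r a
  rw [dif_pos h]
  congr 1
  rw [Equiv.symm_apply_eq]

theorem content_cells (T : SemistandardYoungTableau μ) (q : Fin n ≃ μ.cells) :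
    ∑ c ∈ μ.cells, Finsupp.single (T c.1 c.2) 1 =
      (∑ a, Finsupp.single (T (q a).1.1 (q a).1.2) 1 : ℕ →₀ ℕ) := by
  rw [← Finset.sum_coe_sort μ.cells (fun c => (Finsupp.single (T c.1 c.2) 1 : ℕ →₀ ℕ)),
    ← Equiv.sum_comp q]

/-- The sorting key. -/
def key (T : SemistandardYoungTableau μ) (c : μ.cells) : ℕ ×ₗ ℕ := toLex (T c.1.1 c.1.2, c.1.2)

theorem key_lt_iff (T : SemistandardYoungTableau μ) (c d : μ.cells) :
    key T c < key T d ↔ T c.1.1 c.1.2 < T d.1.1 d.1.2 ∨
      (T c.1.1 c.1.2 = T d.1.1 d.1.2 ∧ c.1.2 < d.1.2) := by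
  unfold key
  rw [Prod.Lex.toLex_lt_toLex]

theorem key_inj (T : SemistandardYoungTableau μ) : Function.Injective (key T) := by
  rintro ⟨⟨i, j⟩, hc⟩ ⟨⟨i', j'⟩, hd⟩ h
  unfold key at h
  simp only [EmbeddingLike.apply_eq_iff_eq, Prod.mk.injEq] at h
  obtain ⟨h1, h2⟩ := h
  subst h2
  rcases lt_trichotomy i i' with h3 | h3 | h3
  · have := T.col_strict h3 hd
    omega
  · subst h3; rfl
  · have := T.col_strict h3 hc
    omega

theorem key_toT (r : Fin n → ℕ) (hr : Monotone r) (q : Fin n ≃ μ.cells) (hq : q ∈ stdSet μ n)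
    (hdes : desQ q ⊆ asc r) (a b : Fin n) (hab : a < b) :
    key (toT r hr q hq hdes) (q a) < key (toT r hr q hq hdes) (q b) := by
  rw [key_lt_iff, toT_cell, toT_cell]
  rcases (hr hab.le).eq_or_lt with h | h
  · right
    refine ⟨h, ?_⟩
    have h1 := rows_anti (rowf q) r hr hdes a b hab.le h
    by_contra hc
    rw [stdSet, mem_filter] at hq
    have := hq.2 b a h1 (not_lt.1 hc)
    omega
  · left; exact h

theorem key_unique (T : SemistandardYoungTableau μ) (q q' : Fin n ≃ μ.cells)
    (h : ∀ a b, a < b → key T (q a) < key T (q b))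
    (h' : ∀ a b, a < b → key T (q' a) < key T (q' b)) : q = q' := by
  have hm : Monotone (q.trans q'.symm : Equiv.Perm (Fin n)) := by
    intro a b hab
    rcases hab.eq_or_lt with e | e
    · rw [e]
    · have h1 := h a b e
      by_contra hc
      rw [not_le] at hc
      have h2 := h' _ _ hc
      simp only [Equiv.trans_apply, Equiv.apply_symm_apply] at h2
      exact lt_asymm h1 h2
  have h3 := (Equiv.Perm.monotone_iff (q.trans q'.symm)).1 hm
  ext a : 1
  have h4 := congrArg (fun σ : Equiv.Perm (Fin n) => q' (σ a)) h3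
  simpa using h4

theorem key_exists (T : SemistandardYoungTableau μ) (hn : μ.cells.card = n) :
    ∃ q : Fin n ≃ μ.cells, ∀ a b, a < b → key T (q a) < key T (q b) := by
  let q0 : Fin n ≃ μ.cells := (μ.cells.equivFinOfCardEq hn).symm
  let f : Fin n → ℕ ×ₗ ℕ := fun a => key T (q0 a)
  refine ⟨(Tuple.sort f).trans q0, fun a b hab => ?_⟩
  have h1 := Tuple.monotone_sort f hab.le
  simp only [Function.comp] at h1
  refine lt_of_le_of_ne h1 ?_
  intro h2
  have h3 := key_inj T h2
  have h4 := (Tuple.sort f).injective (q0.injective h3)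
  omega

/-- Gessel's theorem, coefficientwise. -/
theorem gessel (hn : μ.cells.card = n) (r : Fin n → ℕ) (hr : Monotone r) (e : ℕ →₀ ℕ)
    (he : ∑ k, Finsupp.single (r k) 1 = e) :
    Nat.card {T : SemistandardYoungTableau μ // ∑ c ∈ μ.cells, Finsupp.single (T c.1 c.2) 1 = e} =
      #{q ∈ stdSet μ n | desQ q ⊆ asc r} := by
  have hfin : #{q ∈ stdSet μ n | desQ q ⊆ asc r} =
      Nat.card {q // q ∈ ({q ∈ stdSet μ n | desQ q ⊆ asc r} : Finset (Fin n ≃ μ.cells))} := by
    rw [Nat.card_eq_fintype_card, Fintype.card_coe]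
  rw [hfin]
  symm
  let f : {q // q ∈ ({q ∈ stdSet μ n | desQ q ⊆ asc r} : Finset (Fin n ≃ μ.cells))} →
      {T : SemistandardYoungTableau μ // ∑ c ∈ μ.cells, Finsupp.single (T c.1 c.2) 1 = e} :=
    fun q => ⟨toT r hr q.1 (mem_filter.1 q.2).1 (mem_filter.1 q.2).2, by
      rw [content_cells _ q.1, ← he]
      refine sum_congr rfl fun a _ => ?_
      rw [toT_cell]⟩
  apply Nat.card_eq_of_bijective f
  constructor
  · rintro ⟨q, hq⟩ ⟨q', hq'⟩ h
    have h1 : toT r hr q (mem_filter.1 hq).1 (mem_filter.1 hq).2 =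
        toT r hr q' (mem_filter.1 hq').1 (mem_filter.1 hq').2 := congrArg Subtype.val h
    apply Subtype.ext
    refine key_unique (toT r hr q (mem_filter.1 hq).1 (mem_filter.1 hq).2) q q' ?_ ?_
    · intro a b hab
      exact key_toT r hr q _ _ a b hab
    · intro a b hab
      rw [h1]
      exact key_toT r hr q' _ _ a b hab
  · rintro ⟨T, hT⟩
    obtain ⟨q, hq⟩ := key_exists T hn
    have hmono : Monotone (fun a => T (q a).1.1 (q a).1.2) := by
      intro a b hab
      rcases hab.eq_or_lt with h | h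
      · rw [h]
      · have := hq a b h
        rw [key_lt_iff] at this
        simp only
        omega
    have hTr : (fun a => T (q a).1.1 (q a).1.2) = r := by
      apply content_unique _ _ hmono hr
      rw [he, ← hT, content_cells T q]
    have hTr' : ∀ a, T (q a).1.1 (q a).1.2 = r a := fun a => congr_fun hTr a
    have hstd : q ∈ stdSet μ n := by
      rw [stdSet, mem_filter]
      refine ⟨mem_univ _, fun a b h1 h2 => ?_⟩
      by_contra hc
      rw [not_le] at hc
      have h3 := hq b a hc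
      rw [key_lt_iff] at h3
      have h4 : T (q a).1.1 (q a).1.2 ≤ T (q b).1.1 (q b).1.2 := by
        have hb : ((q b).1.1, (q b).1.2) ∈ μ := (q b).2
        have hm : ((q a).1.1, (q b).1.2) ∈ μ := μ.up_left_mem h1 le_rfl hb
        exact (T.row_weak_of_le h2 hm).trans (T.col_weak h1 hb)
      omega
    have hdes : desQ q ⊆ asc r := by
      intro j hj
      have hj' := mem_Icc.1 (asc_sub _ hj)
      have hjn : j < n := by omega
      rw [desQ, mem_asc _ j hj'.1 hjn] at hj
      rw [mem_asc _ j hj'.1 hjn]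
      have h1 : (⟨j - 1, by omega⟩ : Fin n) < ⟨j, hjn⟩ := by rw [Fin.lt_def]; simp only; omega
      have h2 := hq _ _ h1
      rw [key_lt_iff] at h2
      rw [← hTr', ← hTr']
      rcases h2 with h2 | ⟨h2, h3⟩
      · exact h2
      · exfalso
        simp only [rowf] at hj
        have hb : ((q ⟨j, hjn⟩).1.1, (q ⟨j, hjn⟩).1.2) ∈ μ := (q _).2
        have hm : ((q ⟨j - 1, by omega⟩).1.1, (q ⟨j, hjn⟩).1.2) ∈ μ := μ.up_left_mem hj.le le_rfl hb
        have h4 := T.row_weak h3 hm
        have h5 := T.col_strict hj hb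
        omega
    refine ⟨⟨q, mem_filter.2 ⟨hstd, hdes⟩⟩, ?_⟩
    apply Subtype.ext
    apply SemistandardYoungTableau.ext
    intro i j
    show toT r hr q hstd hdes i j = T i j
    by_cases hc : (i, j) ∈ μ.cells
    · have e1 := toT_cell r hr q hstd hdes (q.symm ⟨(i, j), hc⟩)
      have e2 := hTr' (q.symm ⟨(i, j), hc⟩)
      rw [Equiv.apply_symm_apply] at e1 e2
      rw [e1, ← e2]
    · have hc' : (i, j) ∉ μ := hc
      rw [SemistandardYoungTableau.zeros _ hc', SemistandardYoungTableau.zeros _ hc']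

end H89GC.Gessel
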