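import Pool.Agent.H89.GC.Defs
import Pool.Agent.H89.GC.Gessel

/-!
# Coefficients of the series
-/

namespace H89GC

open Finset Gessel

theorem isFundSeq_iff {n : ℕ} (D : Finset ℕ) (hD : D ⊆ Icc 1 (n - 1)) (r : Fin n → ℕ) :
    IsFundSeq n D r ↔ Monotone r ∧ D ⊆ asc r := by
  unfold IsFundSeq
  refine and_congr_right fun _ => ?_
  constructor
  · intro h j hj
    have h1 := mem_Icc.1 (hD hj)
    have hjn : j < n := by omega
    rw [mem_asc r j h1.1 hjn]
    apply h
    · simp only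
      omega
    · simp only
      rw [Nat.sub_add_cancel h1.1]
      exact hj
  · intro h j k hjk hj
    have h1 := h hj
    rw [mem_asc r _ (by omega) (by omega)] at h1
    have e1 : (⟨(j : ℕ) + 1 - 1, by omega⟩ : Fin n) = j := Fin.ext (by simp)
    have e2 : (⟨(j : ℕ) + 1, by omega⟩ : Fin n) = k := Fin.ext (by simp; omega)
    rwa [e1, e2] at h1

theorem fund_apply {n : ℕ} (D : Finset ℕ) (hD : D ⊆ Icc 1 (n - 1)) (r : Fin n → ℕ)
    (hr : Monotone r) (a : ℕ →₀ ℕ) (ha : ∑ k, Finsupp.single (r k) 1 = a) :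
    fundamental n D a = if D ⊆ asc r then 1 else 0 := by
  unfold fundamental
  split_ifs with h
  · have : Nat.card {i : Fin n → ℕ // IsFundSeq n D i ∧ ∑ j, Finsupp.single (i j) 1 = a} = 1 := by
      rw [Nat.card_eq_one_iff_exists]
      refine ⟨⟨r, (isFundSeq_iff D hD r).2 ⟨hr, h⟩, ha⟩, ?_⟩
      rintro ⟨i, hi, hc⟩
      apply Subtype.ext
      exact Content.content_unique i r ((isFundSeq_iff D hD i).1 hi).1 hr (hc.trans ha.symm)
    rw [this]
    rfl
  · have : IsEmpty {i : Fin n → ℕ // IsFundSeq n D i ∧ ∑ j, Finsupp.single (i j) 1 = a} := by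
      constructor
      rintro ⟨i, hi, hc⟩
      have h1 := (isFundSeq_iff D hD i).1 hi
      have h2 := Content.content_unique i r h1.1 hr (hc.trans ha.symm)
      rw [h2] at h1
      exact h h1.2
    rw [Nat.card_of_isEmpty]
    rfl

theorem fund_zero {n : ℕ} (D : Finset ℕ) (a : ℕ →₀ ℕ) (ha : ∑ x ∈ a.support, a x ≠ n) :
    fundamental n D a = 0 := by
  unfold fundamental
  have : IsEmpty {i : Fin n → ℕ // IsFundSeq n D i ∧ ∑ j, Finsupp.single (i j) 1 = a} := by
    constructor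
    rintro ⟨i, _, hc⟩
    exact ha (Content.content_degree i a hc)
  rw [Nat.card_of_isEmpty]
  rfl

theorem schur_zero {n : ℕ} (μ : YoungDiagram) (hn : μ.cells.card = n) (a : ℕ →₀ ℕ)
    (ha : ∑ x ∈ a.support, a x ≠ n) : schur μ a = 0 := by
  unfold schur
  have : IsEmpty {T : SemistandardYoungTableau μ //
      ∑ c ∈ μ.cells, Finsupp.single (T c.1 c.2) 1 = a} := by
    constructor
    rintro ⟨T, hT⟩
    let q : Fin n ≃ μ.cells := (μ.cells.equivFinOfCardEq hn).symm
    rw [content_cells T q] at hT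
    exact ha (Content.content_degree _ a hT)
  rw [Nat.card_of_isEmpty]
  rfl

theorem schur_apply {n : ℕ} (μ : YoungDiagram) (hn : μ.cells.card = n) (r : Fin n → ℕ)
    (hr : Monotone r) (a : ℕ →₀ ℕ) (ha : ∑ k, Finsupp.single (r k) 1 = a) :
    schur μ a = ((#{q ∈ stdSet μ n | desQ q ⊆ asc r} : ℕ) : ℤ) := by
  unfold schur
  rw [gessel hn r hr a ha]

theorem des_sub {n : ℕ} (π : Equiv.Perm (Fin n)) : des π ⊆ Icc 1 (n - 1) :=
  Finset.filter_subset _ _

theorem quasi_coe {n : ℕ} (S : Finset (Equiv.Perm (Fin n))) (a : ℕ →₀ ℕ) :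
    quasi S a = ∑ π ∈ S, fundamental n (des π) a := by
  have h : MvPowerSeries.coeff a (quasi S) =
      ∑ π ∈ S, MvPowerSeries.coeff a (fundamental n (des π)) := by
    unfold quasi
    rw [map_sum]
  exact h

theorem quasi_apply {n : ℕ} (S : Finset (Equiv.Perm (Fin n))) (r : Fin n → ℕ)
    (hr : Monotone r) (a : ℕ →₀ ℕ) (ha : ∑ k, Finsupp.single (r k) 1 = a) :
    quasi S a = ((#{π ∈ S | des π ⊆ asc r} : ℕ) : ℤ) := by
  rw [quasi_coe, Finset.sum_congr rfl (fun π _ => fund_apply (des π) (des_sub π) r hr a ha),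
    Finset.sum_boole]

theorem quasi_zero {n : ℕ} (S : Finset (Equiv.Perm (Fin n))) (a : ℕ →₀ ℕ)
    (ha : ∑ x ∈ a.support, a x ≠ n) : quasi S a = 0 := by
  rw [quasi_coe, Finset.sum_congr rfl (fun π _ => fund_zero (des π) a ha), Finset.sum_const_zero]

theorem mem_des {n : ℕ} (π : Equiv.Perm (Fin n)) (j : ℕ) (h1 : 1 ≤ j) (h : j < n) :
    j ∈ des π ↔ π ⟨j, h⟩ < π ⟨j - 1, by omega⟩ := by
  rw [des, mem_filter, mem_Icc]
  constructor
  · rintro ⟨_, a, b, ha, hb, hab⟩
    have e1 : a = ⟨j - 1, by omega⟩ := Fin.ext (by simp only; omega)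
    have e2 : b = ⟨j, h⟩ := Fin.ext (by simp only; omega)
    rwa [← e1, ← e2]
  · intro h2
    exact ⟨⟨h1, by omega⟩, ⟨j - 1, by omega⟩, ⟨j, h⟩, by simp only; omega, rfl, h2⟩

/-- Number of pairs of equal entries, an invariant of the content. -/
theorem sum_sq {n : ℕ} (r : Fin n → ℕ) (a : ℕ →₀ ℕ) (ha : ∑ k, Finsupp.single (r k) 1 = a) :
    ∑ x ∈ a.support, a x * a x = #{p : Fin n × Fin n | r p.1 = r p.2} := by
  have h1 : ∀ x, a x = #{v | r v = x} := fun x => by rw [← ha, Content.content_apply]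
  have h2 : ∀ x, a x * a x = #{p : Fin n × Fin n | r p.1 = x ∧ r p.2 = x} := by
    intro x
    rw [h1 x, ← Finset.card_product]
    congr 1
    ext p
    simp
  simp only [h2]
  rw [← Finset.card_biUnion]
  · congr 1
    ext p
    simp only [mem_biUnion, mem_filter, mem_univ, true_and]
    constructor
    · rintro ⟨x, _, h3, h4⟩
      rw [h3, h4]
    · intro h3
      refine ⟨r p.1, ?_, rfl, h3.symm⟩
      rw [Finsupp.mem_support_iff, h1]
      intro h4
      rw [Finset.card_eq_zero] at h4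
      have : p.1 ∈ (∅ : Finset (Fin n)) := by
        rw [← h4, mem_filter]
        exact ⟨mem_univ _, rfl⟩
      simp at this
  · intro x _ y _ hxy
    rw [Function.onFun, Finset.disjoint_left]
    intro p hp hq
    rw [mem_filter] at hp hq
    exact hxy (hp.2.1.symm.trans hq.2.1)

theorem sum_sq_perm (σ : Equiv.Perm ℕ) (a : ℕ →₀ ℕ) (g : ℕ → ℕ) :
    ∑ x ∈ (a.equivMapDomain σ).support, g ((a.equivMapDomain σ) x) = ∑ x ∈ a.support, g (a x) := by
  symm
  refine Finset.sum_nbij (fun x => σ x) ?_ ?_ ?_ ?_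
  · intro x hx
    rw [Finsupp.mem_support_iff] at hx ⊢
    rw [Finsupp.equivMapDomain_apply, Equiv.symm_apply_apply]
    exact hx
  · intro x _ y _ h
    exact σ.injective h
  · intro y hy
    refine ⟨σ.symm y, ?_, by simp⟩
    rw [Finset.mem_coe, Finsupp.mem_support_iff] at hy ⊢
    rw [Finsupp.equivMapDomain_apply] at hy
    exact hy
  · intro x _
    rw [Finsupp.equivMapDomain_apply, Equiv.symm_apply_apply]

end H89GC
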