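import Pool.Agent.H89.GC.Grid

/-!
# The members of the grid class of length 4 and 5
-/

namespace H89GC

open Finset

/-- The permutation of the nonzero cells. -/
def sig : Equiv.Perm (Fin 6) :=
  ⟨![0, 4, 3, 2, 1, 5], ![0, 4, 3, 2, 1, 5], by decide, by decide⟩

/-- The signs of the nonzero cells. -/
def eps : Fin 6 → Bool := ![false, false, true, true, false, false]

instance (k : ℕ) (σ : Fin k → Fin k) (ε : Fin k → Bool) (p q : Fin k) : Decidable (Ord σ ε p q) :=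
  inferInstanceAs (Decidable (_ ∨ _))

/-- Two permutations with the same order of all pairs of values are equal. -/
theorem perm_eq {n : ℕ} (π ρ : Equiv.Perm (Fin n))
    (h : ∀ i j, i < j → (π i < π j ↔ ρ i < ρ j)) : π = ρ := by
  have h2 : ∀ i j, π i < π j → ρ i < ρ j := by
    intro i j hij
    rcases lt_trichotomy i j with h1 | h1 | h1
    · exact (h i j h1).1 hij
    · subst h1
      exact absurd hij (lt_irrefl _)
    · have h3 : ¬ ρ j < ρ i := by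
        rw [← h j i h1]
        exact lt_asymm hij
      rcases lt_trichotomy (ρ i) (ρ j) with h4 | h4 | h4
      · exact h4
      · exact absurd (ρ.injective h4) h1.ne'
      · exact absurd h4 h3
  have hm : Monotone (π.symm.trans ρ : Equiv.Perm (Fin n)) := by
    intro a b hab
    rcases hab.eq_or_lt with e | e
    · rw [e]
    · apply le_of_lt
      apply h2
      simpa using e
  have h3 := (Equiv.Perm.monotone_iff (π.symm.trans ρ)).1 hm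
  ext a : 1
  have h4 := congrArg (fun σ : Equiv.Perm (Fin n) => σ (π a)) h3
  simpa using h4.symm

/-- The members of length 4. -/
def T4 : Fin 18 → Fin 4 → Fin 4 :=
  ![![0, 1, 2, 3],
    ![0, 1, 3, 2],
    ![0, 2, 1, 3],
    ![0, 2, 3, 1],
    ![0, 3, 1, 2],
    ![0, 3, 2, 1],
    ![1, 0, 2, 3],
    ![1, 0, 3, 2],
    ![1, 2, 0, 3],
    ![1, 2, 3, 0],
    ![2, 0, 1, 3],
    ![2, 1, 0, 3],
    ![2, 3, 0, 1],
    ![2, 3, 1, 0],
    ![3, 0, 1, 2],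
    ![3, 1, 2, 0],
    ![3, 2, 0, 1],
    ![3, 2, 1, 0]]

/-- Columns of the positions. -/
def C4 : Fin 18 → Fin 4 → Fin 6 :=
  ![![0, 2, 2, 2],
    ![0, 1, 5, 5],
    ![0, 1, 1, 5],
    ![0, 2, 2, 3],
    ![0, 1, 2, 2],
    ![0, 1, 1, 1],
    ![0, 0, 1, 5],
    ![0, 0, 1, 1],
    ![2, 2, 3, 5],
    ![2, 2, 2, 3],
    ![1, 2, 2, 5],
    ![0, 0, 0, 1],
    ![2, 2, 3, 3],
    ![2, 2, 3, 4],
    ![1, 2, 2, 2],
    ![1, 2, 2, 3],
    ![1, 1, 2, 2],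
    ![0, 0, 0, 0]]

/-- The members of length 5. -/
def T5 : Fin 45 → Fin 5 → Fin 5 :=
  ![![0, 1, 2, 3, 4],
    ![0, 1, 2, 4, 3],
    ![0, 1, 4, 3, 2],
    ![0, 2, 1, 4, 3],
    ![0, 2, 3, 1, 4],
    ![0, 2, 3, 4, 1],
    ![0, 3, 1, 2, 4],
    ![0, 3, 2, 1, 4],
    ![0, 3, 4, 1, 2],
    ![0, 3, 4, 2, 1],
    ![0, 4, 1, 2, 3],
    ![0, 4, 2, 3, 1],
    ![0, 4, 3, 1, 2],
    ![0, 4, 3, 2, 1],
    ![1, 0, 2, 3, 4],
    ![1, 0, 2, 4, 3],
    ![1, 0, 3, 2, 4],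
    ![1, 0, 3, 4, 2],
    ![1, 0, 4, 2, 3],
    ![1, 0, 4, 3, 2],
    ![1, 2, 0, 4, 3],
    ![1, 2, 3, 0, 4],
    ![1, 2, 3, 4, 0],
    ![2, 0, 1, 4, 3],
    ![2, 1, 0, 3, 4],
    ![2, 1, 0, 4, 3],
    ![2, 3, 0, 1, 4],
    ![2, 3, 1, 0, 4],
    ![2, 3, 4, 0, 1],
    ![2, 3, 4, 1, 0],
    ![3, 0, 1, 2, 4],
    ![3, 1, 2, 0, 4],
    ![3, 2, 0, 1, 4],
    ![3, 2, 1, 0, 4],
    ![3, 4, 0, 1, 2],
    ![3, 4, 1, 2, 0],
    ![3, 4, 2, 1, 0],
    ![4, 0, 1, 2, 3],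
    ![4, 1, 2, 3, 0],
    ![4, 2, 3, 0, 1],
    ![4, 2, 3, 1, 0],
    ![4, 3, 0, 1, 2],
    ![4, 3, 1, 2, 0],
    ![4, 3, 2, 0, 1],
    ![4, 3, 2, 1, 0]]

/-- Columns of the positions. -/
def C5 : Fin 45 → Fin 5 → Fin 6 :=
  ![![0, 2, 2, 2, 2],
    ![0, 2, 2, 5, 5],
    ![0, 1, 5, 5, 5],
    ![0, 1, 1, 5, 5],
    ![0, 2, 2, 3, 5],
    ![0, 2, 2, 2, 3],
    ![0, 1, 2, 2, 5],
    ![0, 1, 1, 1, 5],
    ![0, 2, 2, 3, 3],
    ![0, 2, 2, 3, 4],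
    ![0, 1, 2, 2, 2],
    ![0, 1, 2, 2, 3],
    ![0, 1, 1, 2, 2],
    ![0, 1, 1, 1, 1],
    ![0, 0, 2, 2, 2],
    ![0, 0, 1, 5, 5],
    ![0, 0, 1, 1, 5],
    ![0, 0, 2, 2, 3],
    ![0, 0, 1, 2, 2],
    ![0, 0, 1, 1, 1],
    ![2, 2, 3, 5, 5],
    ![2, 2, 2, 3, 5],
    ![2, 2, 2, 2, 3],
    ![1, 2, 2, 5, 5],
    ![0, 0, 0, 1, 5],
    ![0, 0, 0, 1, 1],
    ![2, 2, 3, 3, 5],
    ![2, 2, 3, 4, 5],
    ![2, 2, 2, 3, 3],
    ![2, 2, 2, 3, 4],
    ![1, 2, 2, 2, 5],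
    ![1, 2, 2, 3, 5],
    ![1, 1, 2, 2, 5],
    ![0, 0, 0, 0, 1],
    ![2, 2, 3, 3, 3],
    ![2, 2, 3, 3, 4],
    ![2, 2, 3, 4, 4],
    ![1, 2, 2, 2, 2],
    ![1, 2, 2, 2, 3],
    ![1, 2, 2, 3, 3],
    ![1, 2, 2, 3, 4],
    ![1, 1, 2, 2, 2],
    ![1, 1, 2, 2, 3],
    ![1, 1, 1, 2, 2],
    ![0, 0, 0, 0, 0]]

set_option maxRecDepth 100000

theorem T4_bij : ∀ x, Function.Bijective (T4 x) := by decide +kernel

theorem T5_bij : ∀ x, Function.Bijective (T5 x) := by decide +kernel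

theorem T4_inj : ∀ x y, T4 x = T4 y → x = y := by decide +kernel

theorem T5_inj : ∀ x y, T5 x = T5 y → x = y := by decide +kernel

theorem back4 : ∀ x, ∀ i j, i < j → C4 x i ≤ C4 x j ∧
    (T4 x i < T4 x j ↔ Ord sig eps (C4 x i) (C4 x j)) := by decide +kernel

theorem back5 : ∀ x, ∀ i j, i < j → C5 x i ≤ C5 x j ∧
    (T5 x i < T5 x j ↔ Ord sig eps (C5 x i) (C5 x j)) := by decide +kernel

theorem fwd4 : ∀ c0 c1 : Fin 6, c0 ≤ c1 → ∀ c2, c1 ≤ c2 → ∀ c3, c2 ≤ c3 →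
    ∃ x, ∀ i j : Fin 4, i < j → (T4 x i < T4 x j ↔
      Ord sig eps ((![c0, c1, c2, c3] : Fin 4 → Fin 6) i)
        ((![c0, c1, c2, c3] : Fin 4 → Fin 6) j)) := by
  decide +kernel

theorem fwd5 : ∀ c0 c1 : Fin 6, c0 ≤ c1 → ∀ c2, c1 ≤ c2 → ∀ c3, c2 ≤ c3 → ∀ c4, c3 ≤ c4 →
    ∃ x, ∀ i j : Fin 5, i < j → (T5 x i < T5 x j ↔
      Ord sig eps ((![c0, c1, c2, c3, c4] : Fin 5 → Fin 6) i)
        ((![c0, c1, c2, c3, c4] : Fin 5 → Fin 6) j)) := by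
  decide +kernel

/-- The members of length 4. -/
noncomputable def A4 (x : Fin 18) : Equiv.Perm (Fin 4) := Equiv.ofBijective (T4 x) (T4_bij x)

/-- The members of length 5. -/
noncomputable def A5 (x : Fin 45) : Equiv.Perm (Fin 5) := Equiv.ofBijective (T5 x) (T5_bij x)

theorem A4_inj : Function.Injective A4 := by
  intro x y h
  apply T4_inj
  funext i
  exact congrArg (fun π : Equiv.Perm (Fin 4) => π i) h

theorem A5_inj : Function.Injective A5 := by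
  intro x y h
  apply T5_inj
  funext i
  exact congrArg (fun π : Equiv.Perm (Fin 5) => π i) h

theorem mono_of_lt {n k : ℕ} (f : Fin n → Fin k) (h : ∀ i j, i < j → f i ≤ f j) : Monotone f := by
  intro i j hij
  rcases hij.eq_or_lt with e | e
  · rw [e]
  · exact h i j e

theorem mem4 (π : Equiv.Perm (Fin 4)) : InGrid (signed sig eps) π ↔ ∃ x, A4 x = π := by
  rw [grid_iff]
  constructor
  · rintro ⟨col, hcol, hord⟩
    obtain ⟨x, hx⟩ := fwd4 (col 0) (col 1) (hcol (by decide)) (col 2) (hcol (by decide)) (col 3)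
      (hcol (by decide))
    refine ⟨x, perm_eq _ _ fun i j hij => ?_⟩
    have hc : (![col 0, col 1, col 2, col 3] : Fin 4 → Fin 6) = col := by
      funext i
      fin_cases i <;> rfl
    rw [hc] at hx
    rw [hord i j hij, ← hx i j hij]
    rfl
  · rintro ⟨x, rfl⟩
    exact ⟨C4 x, mono_of_lt _ fun i j hij => (back4 x i j hij).1,
      fun i j hij => (back4 x i j hij).2⟩

theorem mem5 (π : Equiv.Perm (Fin 5)) : InGrid (signed sig eps) π ↔ ∃ x, A5 x = π := by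
  rw [grid_iff]
  constructor
  · rintro ⟨col, hcol, hord⟩
    obtain ⟨x, hx⟩ := fwd5 (col 0) (col 1) (hcol (by decide)) (col 2) (hcol (by decide)) (col 3)
      (hcol (by decide)) (col 4) (hcol (by decide))
    refine ⟨x, perm_eq _ _ fun i j hij => ?_⟩
    have hc : (![col 0, col 1, col 2, col 3, col 4] : Fin 5 → Fin 6) = col := by
      funext i
      fin_cases i <;> rfl
    rw [hc] at hx
    rw [hord i j hij, ← hx i j hij]
    rfl
  · rintro ⟨x, rfl⟩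
    exact ⟨C5 x, mono_of_lt _ fun i j hij => (back5 x i j hij).1,
      fun i j hij => (back5 x i j hij).2⟩

theorem class4 : gridClass (signed sig eps) 4 = univ.map ⟨A4, A4_inj⟩ := by
  ext π
  rw [mem_gridClass, mem_map, mem4]
  simp

theorem class5 : gridClass (signed sig eps) 5 = univ.map ⟨A5, A5_inj⟩ := by
  ext π
  rw [mem_gridClass, mem_map, mem5]
  simp

end H89GC
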