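import Mathlib

/-!
# Grid classes of permutations and Schur-positivity: definitions

Permutations of `{1, …, n}` are elements of `Equiv.Perm (Fin n)`; position `k` and value `v` in the
usual `1`-based notation are the elements `k - 1` and `v - 1` of `Fin n`.
-/

namespace H89GC

open Finset

/-- Formal power series with integer coefficients in the variables `x_0, x_1, …`. -/
abbrev Ser : Type := MvPowerSeries ℕ ℤ

/-- The index sequences of the fundamental quasisymmetric function `F_{n,D}`: weakly increasing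
sequences `i_1 ≤ ⋯ ≤ i_n` with `i_j < i_{j+1}` whenever `j ∈ D` (the entry `i_j` is `i` applied to
the element `j - 1` of `Fin n`). -/
def IsFundSeq (n : ℕ) (D : Finset ℕ) (i : Fin n → ℕ) : Prop :=
  Monotone i ∧ ∀ j k : Fin n, (k : ℕ) = j + 1 → (j : ℕ) + 1 ∈ D → i j < i k

/-- The fundamental quasisymmetric function `F_{n,D}`: the coefficient of `x^a` is the
number of admissible index sequences whose monomial is `x^a`. -/
noncomputable def fundamental (n : ℕ) (D : Finset ℕ) : Ser :=
  fun a => (Nat.card {i : Fin n → ℕ // IsFundSeq n D i ∧ ∑ j, Finsupp.single (i j) 1 = a} : ℤ)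

/-- The descent set, a subset of `{1, …, n-1}`: `j` is a descent when `π(j) > π(j+1)` in the
`1`-based notation. -/
def des {n : ℕ} (π : Equiv.Perm (Fin n)) : Finset ℕ :=
  (Icc 1 (n - 1)).filter (fun j => ∃ a b : Fin n, (a : ℕ) + 1 = j ∧ (b : ℕ) = j ∧ π b < π a)

/-- The quasisymmetric function `𝒬(S)` of a finite set of permutations. -/
noncomputable def quasi {n : ℕ} (S : Finset (Equiv.Perm (Fin n))) : Ser :=
  ∑ π ∈ S, fundamental n (des π)

/-- A power series is symmetric when it is invariant under all permutations of the variables. -/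
def IsSymmetric (f : Ser) : Prop :=
  ∀ (σ : Equiv.Perm ℕ) (a : ℕ →₀ ℕ),
    MvPowerSeries.coeff (a.equivMapDomain σ) f = MvPowerSeries.coeff a f

/-- The Schur function `s_μ`: the coefficient of `x^a` is the number of semistandard Young
tableaux of shape `μ` whose monomial is `x^a`. -/
noncomputable def schur (μ : YoungDiagram) : Ser :=
  fun a => (Nat.card {T : SemistandardYoungTableau μ //
    ∑ c ∈ μ.cells, Finsupp.single (T c.1 c.2) 1 = a} : ℤ)

/-- Schur-positivity: `f` is a symmetric function and a (finite) combination of Schur functions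
with nonnegative integer coefficients. -/
def IsSchurPositive (f : Ser) : Prop :=
  IsSymmetric f ∧ ∃ c : YoungDiagram →₀ ℕ, f = c.sum (fun μ m => m • schur μ)

/-- Membership in the grid class of the matrix `M` with entries `0`, `1`, `-1`, rows indexed from
bottom to top and columns from left to right. The gridlines are `0 = a_0 ≤ a_1 ≤ ⋯ ≤ a_c = n` and
`0 = b_0 ≤ b_1 ≤ ⋯ ≤ b_r = n`; the points of the cell `(i, j)` are the positions `k` with
`a_{j-1} < k ≤ a_j` and `b_{i-1} < π(k) ≤ b_i` (in `1`-based notation). -/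
def InGrid {r c n : ℕ} (M : Matrix (Fin r) (Fin c) SignType) (π : Equiv.Perm (Fin n)) : Prop :=
  ∃ (a : Fin (c + 1) → ℕ) (b : Fin (r + 1) → ℕ),
    (Monotone a ∧ a 0 = 0 ∧ a (Fin.last c) = n) ∧
    (Monotone b ∧ b 0 = 0 ∧ b (Fin.last r) = n) ∧
    ∀ (i : Fin r) (j : Fin c) (P : Set (Fin n)),
      P = {k : Fin n | (a j.castSucc ≤ k ∧ (k : ℕ) < a j.succ) ∧
        (b i.castSucc ≤ π k ∧ (π k : ℕ) < b i.succ)} →
      (M i j = 1 → StrictMonoOn π P) ∧ (M i j = -1 → StrictAntiOn π P) ∧ (M i j = 0 → P = ∅)

open Classical in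
/-- The set `𝒢_n` of the permutations of `{1, …, n}` in the grid class `𝒢` of `M`. -/
noncomputable def gridClass {r c : ℕ} (M : Matrix (Fin r) (Fin c) SignType) (n : ℕ) :
    Finset (Equiv.Perm (Fin n)) :=
  univ.filter (fun π => InGrid M π)

/-- The 6 by 6 matrix of the counterexample (the first line is the bottom row). -/
def M0 : Matrix (Fin 6) (Fin 6) SignType :=
  !![-1, 0, 0, 0, 0, 0;
     0, 0, 0, 0, -1, 0;
     0, 0, 0, 1, 0, 0;
     0, 0, 1, 0, 0, 0;
     0, -1, 0, 0, 0, 0;
     0, 0, 0, 0, 0, -1]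

end H89GC
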