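import Pool.Agent.H89.GC.Defs

/-!
# Grid classes of signed permutation matrices
-/

namespace H89GC

open Finset

theorem mem_gridClass {r c : ℕ} (M : Matrix (Fin r) (Fin c) SignType) (n : ℕ)
    (π : Equiv.Perm (Fin n)) : π ∈ gridClass M n ↔ InGrid M π := by
  classical
  unfold gridClass
  simp

/-- A lower set of `Fin n` is an initial segment. -/
theorem lower_iff {n : ℕ} (L : Finset (Fin n)) (hL : ∀ x y : Fin n, y ≤ x → x ∈ L → y ∈ L)
    (x : Fin n) : (x : ℕ) < L.card ↔ x ∈ L := by
  constructor
  · intro h
    by_contra hx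
    have h1 : L ⊆ Finset.Iio x := by
      intro y hy
      rw [mem_Iio]
      by_contra hc
      exact hx (hL y x (not_lt.1 hc) hy)
    have h2 := Finset.card_le_card h1
    rw [Fin.card_Iio] at h2
    omega
  · intro h
    have h1 : Finset.Iic x ⊆ L := by
      intro y hy
      rw [mem_Iic] at hy
      exact hL x y hy h
    have h2 := Finset.card_le_card h1
    rw [Fin.card_Iic] at h2
    omega

/-- In a chain of gridlines every position lies in a strip. -/
theorem exists_strip {c n : ℕ} (a : Fin (c + 1) → ℕ) (h0 : a 0 = 0) (hn : a (Fin.last c) = n)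
    (x : ℕ) (hx : x < n) : ∃ j : Fin c, a j.castSucc ≤ x ∧ x < a j.succ := by
  by_contra hc
  push Not at hc
  have key : ∀ m : ℕ, ∀ h : m < c + 1, a ⟨m, h⟩ ≤ x := by
    intro m
    induction m with
    | zero =>
      intro h
      have : a ⟨0, h⟩ = 0 := h0
      omega
    | succ m ih =>
      intro h
      exact hc ⟨m, by omega⟩ (ih (by omega))
  have h1 := key c (by omega)
  have h2 : a ⟨c, by omega⟩ = n := hn
  omega

theorem strip_mono {c : ℕ} (a : Fin (c + 1) → ℕ) (ha : Monotone a) (x y : ℕ) (i j : Fin c)
    (hi : a i.castSucc ≤ x ∧ x < a i.succ) (hj : a j.castSucc ≤ y ∧ y < a j.succ) (h : i < j) :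
    x < y := by
  have h1 : i.succ ≤ j.castSucc := by
    rw [Fin.le_def, Fin.val_succ, Fin.val_castSucc]
    rw [Fin.lt_def] at h
    omega
  have := ha h1
  omega

/-- The matrix of a permutation `σ` with signs: column `j` has its only nonzero entry in row
`σ j`, equal to `1` if `ε j` is true and to `-1` otherwise. -/
def signed {k : ℕ} (σ : Equiv.Perm (Fin k)) (ε : Fin k → Bool) :
    Matrix (Fin k) (Fin k) SignType :=
  fun i j => if i = σ j then (if ε j = true then 1 else -1) else 0

/-- Order of the values at positions `x < y`, from the columns of the positions. -/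
def Ord {k : ℕ} (σ : Fin k → Fin k) (ε : Fin k → Bool) (p q : Fin k) : Prop :=
  σ p < σ q ∨ (p = q ∧ ε p = true)

theorem grid_iff {k n : ℕ} (σ : Equiv.Perm (Fin k)) (ε : Fin k → Bool)
    (π : Equiv.Perm (Fin n)) :
    InGrid (signed σ ε) π ↔ ∃ col : Fin n → Fin k, Monotone col ∧
      ∀ x y, x < y → (π x < π y ↔ Ord σ ε (col x) (col y)) := by
  constructor
  · rintro ⟨a, b, ⟨ha, ha0, han⟩, ⟨hb, hb0, hbn⟩, hP⟩
    have h1 : ∀ x : Fin n, ∃ j : Fin k, a j.castSucc ≤ x ∧ (x : ℕ) < a j.succ := fun x =>
      exists_strip a ha0 han x x.2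
    have h2 : ∀ x : Fin n, ∃ i : Fin k, b i.castSucc ≤ π x ∧ (π x : ℕ) < b i.succ := fun x =>
      exists_strip b hb0 hbn (π x) (π x).2
    choose col hcol using h1
    choose row hrow using h2
    have hcell : ∀ x, row x = σ (col x) := by
      intro x
      by_contra hne
      have h3 := (hP (row x) (col x) _ rfl).2.2 (by rw [signed, if_neg hne])
      have h4 : x ∈ (∅ : Set (Fin n)) := by
        rw [← h3]
        exact ⟨hcol x, hrow x⟩
      exact h4
    refine ⟨col, ?_, ?_⟩
    · intro x y hxy
      by_contra hc
      rw [not_le] at hc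
      have := strip_mono a ha y x (col y) (col x) (hcol y) (hcol x) hc
      rw [Fin.le_def] at hxy
      omega
    · intro x y hxy
      rcases lt_trichotomy (σ (col x)) (σ (col y)) with h | h | h
      · have h3 := strip_mono b hb (π x) (π y) (row x) (row y) (hrow x) (hrow y)
          (by rw [hcell, hcell]; exact h)
        exact ⟨fun _ => Or.inl h, fun _ => h3⟩
      · have hc : col x = col y := σ.injective h
        obtain ⟨hm, hd, -⟩ := hP (σ (col x)) (col x) _ rfl
        have hx : x ∈ {z : Fin n | (a (col x).castSucc ≤ z ∧ (z : ℕ) < a (col x).succ) ∧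
            (b (σ (col x)).castSucc ≤ π z ∧ (π z : ℕ) < b (σ (col x)).succ)} := by
          refine ⟨hcol x, ?_⟩
          rw [← hcell]
          exact hrow x
        have hy : y ∈ {z : Fin n | (a (col x).castSucc ≤ z ∧ (z : ℕ) < a (col x).succ) ∧
            (b (σ (col x)).castSucc ≤ π z ∧ (π z : ℕ) < b (σ (col x)).succ)} := by
          refine ⟨by rw [hc]; exact hcol y, ?_⟩
          rw [hc, ← hcell]
          exact hrow y
        by_cases he : ε (col x) = true
        · have h3 := hm (by rw [signed, if_pos rfl, if_pos he]) hx hy hxy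
          exact ⟨fun _ => Or.inr ⟨hc, he⟩, fun _ => h3⟩
        · have h3 := hd (by rw [signed, if_pos rfl, if_neg he]) hx hy hxy
          refine ⟨fun h4 => absurd h3 (lt_asymm h4), ?_⟩
          rintro (h4 | ⟨_, h4⟩)
          · exact absurd h4 (by rw [h]; exact lt_irrefl _)
          · exact absurd h4 he
      · have h3 := strip_mono b hb (π y) (π x) (row y) (row x) (hrow y) (hrow x)
          (by rw [hcell, hcell]; exact h)
        refine ⟨fun h4 => absurd h4 (lt_asymm h3), ?_⟩
        rintro (h4 | ⟨h4, _⟩)
        · exact absurd h4 (lt_asymm h)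
        · exact absurd h (by rw [h4]; exact lt_irrefl _)
  · rintro ⟨col, hcol, hord⟩
    -- all pairs of distinct rows are ordered correctly
    have hrow : ∀ x y, σ (col x) < σ (col y) → π x < π y := by
      intro x y h
      rcases lt_trichotomy x y with h1 | h1 | h1
      · exact (hord x y h1).2 (Or.inl h)
      · subst h1
        exact absurd h (lt_irrefl _)
      · have h2 : ¬ π y < π x := by
          rw [hord y x h1]
          rintro (h4 | ⟨h4, _⟩)
          · exact lt_asymm h4 h
          · rw [h4] at h
            exact lt_irrefl _ h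
        rcases lt_trichotomy (π x) (π y) with h3 | h3 | h3
        · exact h3
        · exact absurd (π.injective h3) h1.ne'
        · exact absurd h3 h2
    let a : Fin (k + 1) → ℕ := fun j => (univ.filter (fun x : Fin n => (col x : ℕ) < j)).card
    let b : Fin (k + 1) → ℕ := fun i =>
      (univ.filter (fun x : Fin n => (σ (col x) : ℕ) < i)).card
    have hA : ∀ (j : Fin (k + 1)) (x : Fin n), (x : ℕ) < a j ↔ (col x : ℕ) < j := by
      intro j x
      rw [lower_iff _ ?_ x, mem_filter]
      · simp
      · intro x y hyx hx
        rw [mem_filter] at hx ⊢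
        have := hcol hyx
        rw [Fin.le_def] at this
        exact ⟨mem_univ _, by omega⟩
    have hB : ∀ (i : Fin (k + 1)) (x : Fin n), (π x : ℕ) < b i ↔ (σ (col x) : ℕ) < i := by
      intro i x
      have h1 : b i = ((univ.filter (fun x : Fin n => (σ (col x) : ℕ) < i)).map
          π.toEmbedding).card := by rw [Finset.card_map]
      rw [h1, lower_iff _ ?_ (π x)]
      · simp
      · intro u v hvu hu
        rw [mem_map] at hu ⊢
        obtain ⟨x, hx, rfl⟩ := hu
        refine ⟨π.symm v, ?_, by simp⟩
        rw [mem_filter] at hx ⊢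
        refine ⟨mem_univ _, ?_⟩
        by_contra hc
        have h2 : σ (col x) < σ (col (π.symm v)) := by
          rw [Fin.lt_def]
          omega
        have h3 := hrow _ _ h2
        rw [Equiv.apply_symm_apply] at h3
        have h4 : v ≤ π x := hvu
        exact absurd h3 (not_lt.2 h4)
    refine ⟨a, b, ⟨?_, ?_, ?_⟩, ⟨?_, ?_, ?_⟩, ?_⟩
    · intro i j hij
      apply Finset.card_le_card
      intro x hx
      rw [mem_filter] at hx ⊢
      rw [Fin.le_def] at hij
      exact ⟨mem_univ _, by omega⟩
    · simp [a]
    · have : (univ.filter (fun x : Fin n => (col x : ℕ) < (Fin.last k : Fin (k + 1)))) = univ := by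
        apply Finset.filter_true_of_mem
        intro x _
        rw [Fin.val_last]
        exact (col x).2
      show (univ.filter (fun x : Fin n => (col x : ℕ) < (Fin.last k : Fin (k + 1)))).card = n
      rw [this, Finset.card_univ, Fintype.card_fin]
    · intro i j hij
      apply Finset.card_le_card
      intro x hx
      rw [mem_filter] at hx ⊢
      rw [Fin.le_def] at hij
      exact ⟨mem_univ _, by omega⟩
    · simp [b]
    · have : (univ.filter (fun x : Fin n => (σ (col x) : ℕ) < (Fin.last k : Fin (k + 1)))) =
          univ := by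
        apply Finset.filter_true_of_mem
        intro x _
        rw [Fin.val_last]
        exact (σ (col x)).2
      show (univ.filter (fun x : Fin n => (σ (col x) : ℕ) < (Fin.last k : Fin (k + 1)))).card = n
      rw [this, Finset.card_univ, Fintype.card_fin]
    · rintro i j P rfl
      have hmem : ∀ x : Fin n, x ∈ {z : Fin n | (a j.castSucc ≤ z ∧ (z : ℕ) < a j.succ) ∧
            (b i.castSucc ≤ π z ∧ (π z : ℕ) < b i.succ)} → col x = j ∧ σ (col x) = i := by
        rintro x ⟨⟨h1, h2⟩, h3, h4⟩
        rw [← not_lt, hA, Fin.val_castSucc] at h1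
        rw [hA, Fin.val_succ] at h2
        rw [← not_lt, hB, Fin.val_castSucc] at h3
        rw [hB, Fin.val_succ] at h4
        exact ⟨Fin.ext (by omega), Fin.ext (by omega)⟩
      refine ⟨?_, ?_, ?_⟩
      · intro hM x hx y hy hxy
        obtain ⟨hx1, hx2⟩ := hmem x hx
        obtain ⟨hy1, hy2⟩ := hmem y hy
        rw [hord x y hxy]
        right
        refine ⟨by rw [hx1, hy1], ?_⟩
        by_contra he
        rw [signed, if_pos (by rw [← hx2, hx1]), if_neg (by rw [← hx1]; exact he)] at hM
        exact absurd hM (by decide)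
      · intro hM x hx y hy hxy
        obtain ⟨hx1, hx2⟩ := hmem x hx
        obtain ⟨hy1, hy2⟩ := hmem y hy
        have h1 : ¬ π x < π y := by
          rw [hord x y hxy]
          rintro (h | ⟨_, he⟩)
          · rw [hx1, hy1] at h
            exact lt_irrefl _ h
          · rw [signed, if_pos (by rw [← hx2, hx1]), if_pos (by rw [← hx1]; exact he)] at hM
            exact absurd hM (by decide)
        rcases lt_trichotomy (π x) (π y) with h3 | h3 | h3
        · exact absurd h3 h1
        · exact absurd (π.injective h3) hxy.ne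
        · exact h3
      · intro hM
        rw [Set.eq_empty_iff_forall_notMem]
        intro x hx
        obtain ⟨hx1, hx2⟩ := hmem x hx
        rw [signed, if_pos (by rw [← hx2, hx1])] at hM
        split_ifs at hM

end H89GC
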