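import Pool.Agent.H89.GC.Shapes

/-!
# The Schur expansion
-/

namespace H89GC

open Finset Gessel

set_option maxRecDepth 100000

/-- Number of standard fillings of the cells `(R c, C c)` with descents in the set given by `s`. -/
def K (R C : Fin 5 → ℕ) (s : Fin 4 → Bool) : ℕ :=
  #{τ : Equiv.Perm (Fin 5) | (∀ a b, R (τ a) ≤ R (τ b) → C (τ a) ≤ C (τ b) → a ≤ b) ∧
    ∀ i : Fin 4, R (τ i.castSucc) < R (τ i.succ) → s i = true}

theorem card_of_cells (μ : YoungDiagram) (R C : Fin 5 → ℕ)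
    (hinj : ∀ c d, R c = R d → C c = C d → c = d)
    (hμ : μ.cells = univ.image (fun c => (R c, C c))) : μ.cells.card = 5 := by
  rw [hμ, Finset.card_image_of_injective]
  · rfl
  · intro c d h
    rw [Prod.mk.injEq] at h
    exact hinj c d h.1 h.2

theorem std_count (μ : YoungDiagram) (R C : Fin 5 → ℕ)
    (hinj : ∀ c d, R c = R d → C c = C d → c = d)
    (hμ : μ.cells = univ.image (fun c => (R c, C c))) (r : Fin 5 → ℕ) :
    #{q ∈ stdSet μ 5 | desQ q ⊆ asc r} = K R C (bits r) := by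
  have hmem : ∀ c : Fin 5, (R c, C c) ∈ μ.cells := by
    intro c
    rw [hμ, mem_image]
    exact ⟨c, mem_univ _, rfl⟩
  let e : Fin 5 ≃ μ.cells := Equiv.ofBijective (fun c => ⟨(R c, C c), hmem c⟩) (by
    constructor
    · intro c d h
      have h1 := congrArg Subtype.val h
      simp only [Prod.mk.injEq] at h1
      exact hinj c d h1.1 h1.2
    · rintro ⟨x, hx⟩
      rw [hμ, mem_image] at hx
      obtain ⟨c, _, hc⟩ := hx
      exact ⟨c, Subtype.ext hc⟩)
  have he : ∀ c, ((e c).1.1 = R c) ∧ ((e c).1.2 = C c) := fun c => ⟨rfl, rfl⟩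
  symm
  unfold K
  refine Finset.card_bij (fun τ _ => τ.trans e) ?_ ?_ ?_
  · intro τ hτ
    rw [mem_filter] at hτ
    rw [mem_filter, stdSet, mem_filter, desQ, asc_sub_iff]
    refine ⟨⟨mem_univ _, hτ.2.1⟩, fun i hi => ?_⟩
    rw [succ_mem_asc]
    exact hτ.2.2 i hi
  · intro τ _ τ' _ h
    ext c : 1
    exact e.injective (congrArg (fun q : Fin 5 ≃ μ.cells => q c) h)
  · intro q hq
    rw [mem_filter, stdSet, mem_filter, desQ, asc_sub_iff] at hq
    have hτ : ∀ c, e ((q.trans e.symm) c) = q c := fun c => by simp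
    have hR : ∀ c, R ((q.trans e.symm) c) = (q c).1.1 := fun c => by
      rw [← (he _).1, hτ]
    have hC : ∀ c, C ((q.trans e.symm) c) = (q c).1.2 := fun c => by
      rw [← (he _).2, hτ]
    refine ⟨q.trans e.symm, ?_, ?_⟩
    · rw [mem_filter]
      refine ⟨mem_univ _, ?_, ?_⟩
      · intro a b h1 h2
        rw [hR, hR] at h1
        rw [hC, hC] at h2
        exact hq.1.2 a b h1 h2
      · intro i hi
        rw [hR, hR] at hi
        rw [← succ_mem_asc]
        exact hq.2 i hi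
    · ext c : 1
      simp

/-- Shape with given row lengths. -/
def sh5 : YoungDiagram := YoungDiagram.ofRowLens [5] (by decide)
def sh41 : YoungDiagram := YoungDiagram.ofRowLens [4, 1] (by decide)
def sh32 : YoungDiagram := YoungDiagram.ofRowLens [3, 2] (by decide)
def sh311 : YoungDiagram := YoungDiagram.ofRowLens [3, 1, 1] (by decide)
def sh2111 : YoungDiagram := YoungDiagram.ofRowLens [2, 1, 1, 1] (by decide)
def sh11111 : YoungDiagram := YoungDiagram.ofRowLens [1, 1, 1, 1, 1] (by decide)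

theorem K_eq : ∀ s : Fin 4 → Bool, N5 s = K ![0, 0, 0, 0, 0] ![0, 1, 2, 3, 4] s +
    3 * K ![0, 0, 0, 0, 1] ![0, 1, 2, 3, 0] s + K ![0, 0, 0, 1, 1] ![0, 1, 2, 0, 1] s +
    3 * K ![0, 0, 0, 1, 2] ![0, 1, 2, 0, 0] s + 2 * K ![0, 0, 1, 2, 3] ![0, 1, 0, 0, 0] s +
    K ![0, 1, 2, 3, 4] ![0, 0, 0, 0, 0] s := by
  decide +kernel

theorem cells5 : sh5.cells = univ.image (fun c : Fin 5 =>
    ((![0, 0, 0, 0, 0] : Fin 5 → ℕ) c, (![0, 1, 2, 3, 4] : Fin 5 → ℕ) c)) := by
  decide +kernel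
theorem cells41 : sh41.cells = univ.image (fun c : Fin 5 =>
    ((![0, 0, 0, 0, 1] : Fin 5 → ℕ) c, (![0, 1, 2, 3, 0] : Fin 5 → ℕ) c)) := by
  decide +kernel
theorem cells32 : sh32.cells = univ.image (fun c : Fin 5 =>
    ((![0, 0, 0, 1, 1] : Fin 5 → ℕ) c, (![0, 1, 2, 0, 1] : Fin 5 → ℕ) c)) := by
  decide +kernel
theorem cells311 : sh311.cells = univ.image (fun c : Fin 5 =>
    ((![0, 0, 0, 1, 2] : Fin 5 → ℕ) c, (![0, 1, 2, 0, 0] : Fin 5 → ℕ) c)) := by
  decide +kernel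
theorem cells2111 : sh2111.cells = univ.image (fun c : Fin 5 =>
    ((![0, 0, 1, 2, 3] : Fin 5 → ℕ) c, (![0, 1, 0, 0, 0] : Fin 5 → ℕ) c)) := by
  decide +kernel
theorem cells11111 : sh11111.cells = univ.image (fun c : Fin 5 =>
    ((![0, 1, 2, 3, 4] : Fin 5 → ℕ) c, (![0, 0, 0, 0, 0] : Fin 5 → ℕ) c)) := by
  decide +kernel

theorem inj5 : ∀ c d : Fin 5, (![0, 0, 0, 0, 0] : Fin 5 → ℕ) c = (![0, 0, 0, 0, 0] : Fin 5 → ℕ) d →
    (![0, 1, 2, 3, 4] : Fin 5 → ℕ) c = (![0, 1, 2, 3, 4] : Fin 5 → ℕ) d → c = d := by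
  decide +kernel
theorem inj41 : ∀ c d : Fin 5, (![0, 0, 0, 0, 1] : Fin 5 → ℕ) c = (![0, 0, 0, 0, 1] : Fin 5 → ℕ) d →
    (![0, 1, 2, 3, 0] : Fin 5 → ℕ) c = (![0, 1, 2, 3, 0] : Fin 5 → ℕ) d → c = d := by
  decide +kernel
theorem inj32 : ∀ c d : Fin 5, (![0, 0, 0, 1, 1] : Fin 5 → ℕ) c = (![0, 0, 0, 1, 1] : Fin 5 → ℕ) d →
    (![0, 1, 2, 0, 1] : Fin 5 → ℕ) c = (![0, 1, 2, 0, 1] : Fin 5 → ℕ) d → c = d := by
  decide +kernel
theorem inj311 : ∀ c d : Fin 5, (![0, 0, 0, 1, 2] : Fin 5 → ℕ) c = (![0, 0, 0, 1, 2] : Fin 5 → ℕ) d →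
    (![0, 1, 2, 0, 0] : Fin 5 → ℕ) c = (![0, 1, 2, 0, 0] : Fin 5 → ℕ) d → c = d := by
  decide +kernel
theorem inj2111 : ∀ c d : Fin 5,
    (![0, 0, 1, 2, 3] : Fin 5 → ℕ) c = (![0, 0, 1, 2, 3] : Fin 5 → ℕ) d →
    (![0, 1, 0, 0, 0] : Fin 5 → ℕ) c = (![0, 1, 0, 0, 0] : Fin 5 → ℕ) d → c = d := by
  decide +kernel
theorem inj11111 : ∀ c d : Fin 5,
    (![0, 1, 2, 3, 4] : Fin 5 → ℕ) c = (![0, 1, 2, 3, 4] : Fin 5 → ℕ) d →
    (![0, 0, 0, 0, 0] : Fin 5 → ℕ) c = (![0, 0, 0, 0, 0] : Fin 5 → ℕ) d → c = d := by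
  decide +kernel

/-- The expansion of `𝒬(𝒢_5)` in Schur functions. -/
theorem expand : quasi (gridClass (signed sig eps) 5) =
    1 • schur sh5 + 3 • schur sh41 + 1 • schur sh32 + 3 • schur sh311 + 2 • schur sh2111 +
      1 • schur sh11111 := by
  funext a
  change quasi (gridClass (signed sig eps) 5) a =
    1 • schur sh5 a + 3 • schur sh41 a + 1 • schur sh32 a + 3 • schur sh311 a +
      2 • schur sh2111 a + 1 • schur sh11111 a
  have h1 := card_of_cells sh5 _ _ inj5 cells5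
  have h2 := card_of_cells sh41 _ _ inj41 cells41
  have h3 := card_of_cells sh32 _ _ inj32 cells32
  have h4 := card_of_cells sh311 _ _ inj311 cells311
  have h5 := card_of_cells sh2111 _ _ inj2111 cells2111
  have h6 := card_of_cells sh11111 _ _ inj11111 cells11111
  by_cases ha : ∑ x ∈ a.support, a x = 5
  · obtain ⟨r, hr, hc⟩ := Content.content_exists a ha
    rw [quasi_apply _ r hr a hc, schur_apply sh5 h1 r hr a hc, schur_apply sh41 h2 r hr a hc,
      schur_apply sh32 h3 r hr a hc, schur_apply sh311 h4 r hr a hc,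
      schur_apply sh2111 h5 r hr a hc, schur_apply sh11111 h6 r hr a hc,
      std_count sh5 _ _ inj5 cells5, std_count sh41 _ _ inj41 cells41,
      std_count sh32 _ _ inj32 cells32, std_count sh311 _ _ inj311 cells311,
      std_count sh2111 _ _ inj2111 cells2111, std_count sh11111 _ _ inj11111 cells11111,
      count5, K_eq]
    push_cast
    simp only [nsmul_eq_mul]
    push_cast
    ring
  · rw [quasi_zero _ a ha, schur_zero sh5 h1 a ha, schur_zero sh41 h2 a ha,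
      schur_zero sh32 h3 a ha, schur_zero sh311 h4 a ha, schur_zero sh2111 h5 a ha,
      schur_zero sh11111 h6 a ha]
    simp

theorem positive5 : IsSchurPositive (quasi (gridClass (signed sig eps) 5)) := by
  refine ⟨symm5, Finsupp.single sh5 1 + Finsupp.single sh41 3 + Finsupp.single sh32 1 +
    Finsupp.single sh311 3 + Finsupp.single sh2111 2 + Finsupp.single sh11111 1, ?_⟩
  have h0 : ∀ μ : YoungDiagram, (fun (μ : YoungDiagram) (m : ℕ) => m • schur μ) μ 0 = 0 := by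
    intro μ
    simp
  have hadd : ∀ (μ : YoungDiagram) (m m' : ℕ),
      (fun (μ : YoungDiagram) (m : ℕ) => m • schur μ) μ (m + m') =
      (fun (μ : YoungDiagram) (m : ℕ) => m • schur μ) μ m +
        (fun (μ : YoungDiagram) (m : ℕ) => m • schur μ) μ m' := by
    intro μ m m'
    exact add_smul m m' (schur μ)
  rw [expand, Finsupp.sum_add_index' h0 hadd, Finsupp.sum_add_index' h0 hadd,
    Finsupp.sum_add_index' h0 hadd, Finsupp.sum_add_index' h0 hadd,
    Finsupp.sum_add_index' h0 hadd, Finsupp.sum_single_index (h0 _),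
    Finsupp.sum_single_index (h0 _), Finsupp.sum_single_index (h0 _),
    Finsupp.sum_single_index (h0 _), Finsupp.sum_single_index (h0 _),
    Finsupp.sum_single_index (h0 _)]

end H89GC
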