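import Pool.Agent.H89.GC.Coeff
import Pool.Agent.H89.GC.Data

/-!
# Counting descents
-/

namespace H89GC

open Finset Gessel

theorem des_sub_iff {m : ℕ} (π : Equiv.Perm (Fin (m + 1))) (S : Finset ℕ) :
    des π ⊆ S ↔ ∀ i : Fin m, π i.succ < π i.castSucc → (i : ℕ) + 1 ∈ S := by
  constructor
  · intro h i hi
    apply h
    rw [mem_des π _ (by omega) (by omega)]
    exact hi
  · intro h j hj
    have h1 := mem_Icc.1 (des_sub π hj)
    have hjn : j < m + 1 := by omega
    rw [mem_des π j h1.1 hjn] at hj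
    have h2 := h ⟨j - 1, by omega⟩ (by
      have e1 : (⟨j - 1, by omega⟩ : Fin m).succ = ⟨j, hjn⟩ := Fin.ext (by simp; omega)
      have e2 : (⟨j - 1, by omega⟩ : Fin m).castSucc = ⟨j - 1, by omega⟩ := rfl
      rw [e1, e2]
      exact hj)
    simp only at h2
    rwa [Nat.sub_add_cancel h1.1] at h2

theorem asc_sub_iff {m : ℕ} (w : Fin (m + 1) → ℕ) (S : Finset ℕ) :
    asc w ⊆ S ↔ ∀ i : Fin m, w i.castSucc < w i.succ → (i : ℕ) + 1 ∈ S := by
  constructor
  · intro h i hi
    apply h
    rw [mem_asc w _ (by omega) (by omega)]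
    exact hi
  · intro h j hj
    have h1 := mem_Icc.1 (asc_sub w hj)
    have hjn : j < m + 1 := by omega
    rw [mem_asc w j h1.1 hjn] at hj
    have h2 := h ⟨j - 1, by omega⟩ (by
      have e1 : (⟨j - 1, by omega⟩ : Fin m).succ = ⟨j, hjn⟩ := Fin.ext (by simp; omega)
      have e2 : (⟨j - 1, by omega⟩ : Fin m).castSucc = ⟨j - 1, by omega⟩ := rfl
      rw [e1, e2]
      exact hj)
    simp only at h2
    rwa [Nat.sub_add_cancel h1.1] at h2

/-- The places of the strict ascents of `r`. -/
def bits {m : ℕ} (r : Fin (m + 1) → ℕ) (i : Fin m) : Bool := decide (r i.castSucc < r i.succ)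

theorem succ_mem_asc {m : ℕ} (r : Fin (m + 1) → ℕ) (i : Fin m) :
    (i : ℕ) + 1 ∈ asc r ↔ bits r i = true := by
  rw [mem_asc r _ (by omega) (by omega), bits, decide_eq_true_iff]
  rfl

/-- Number of members of length 5 with descents in the set given by `s`. -/
def N5 (s : Fin 4 → Bool) : ℕ :=
  #{x : Fin 45 | ∀ i : Fin 4, T5 x i.succ < T5 x i.castSucc → s i = true}

/-- Number of members of length 4 with descents in the set given by `s`. -/
def N4 (s : Fin 3 → Bool) : ℕ :=
  #{x : Fin 18 | ∀ i : Fin 3, T4 x i.succ < T4 x i.castSucc → s i = true}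

theorem count5 (r : Fin 5 → ℕ) :
    #{π ∈ gridClass (signed sig eps) 5 | des π ⊆ asc r} = N5 (bits r) := by
  rw [class5, Finset.filter_map, Finset.card_map, N5]
  congr 1
  ext x
  simp only [mem_filter, mem_univ, true_and, Function.comp_apply, Function.Embedding.coeFn_mk]
  rw [des_sub_iff]
  refine forall_congr' fun i => ?_
  rw [succ_mem_asc]
  rfl

theorem count4 (r : Fin 4 → ℕ) :
    #{π ∈ gridClass (signed sig eps) 4 | des π ⊆ asc r} = N4 (bits r) := by
  rw [class4, Finset.filter_map, Finset.card_map, N4]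
  congr 1
  ext x
  simp only [mem_filter, mem_univ, true_and, Function.comp_apply, Function.Embedding.coeFn_mk]
  rw [des_sub_iff]
  refine forall_congr' fun i => ?_
  rw [succ_mem_asc]
  rfl

/-- Equality of the entries `i`, `j` of a monotone sequence, from its ascents. -/
def Same {m : ℕ} (s : Fin m → Bool) (p : Fin (m + 1) × Fin (m + 1)) : Prop :=
  ∀ t : Fin m, ((p.1 ≤ t.castSucc ∧ t.castSucc < p.2) ∨ (p.2 ≤ t.castSucc ∧ t.castSucc < p.1)) →
    s t = false

instance {m : ℕ} (s : Fin m → Bool) (p : Fin (m + 1) × Fin (m + 1)) : Decidable (Same s p) :=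
  inferInstanceAs (Decidable (∀ _, _))

theorem eq_of_flat {m : ℕ} (r : Fin (m + 1) → ℕ) (hr : Monotone r) (i : Fin (m + 1)) (d : ℕ) :
    ∀ j : Fin (m + 1), (j : ℕ) = i + d →
      (∀ t : Fin m, i ≤ t.castSucc → t.castSucc < j → bits r t = false) → r i = r j := by
  induction d with
  | zero =>
    intro j hj _
    rw [show j = i from Fin.ext (by omega)]
  | succ d ih =>
    intro j hj h
    have hlt : (i : ℕ) + d < m := by
      have := j.2
      omega
    have h1 := ih ⟨i + d, by omega⟩ rfl (fun t h1 h2 => h t h1 (by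
      rw [Fin.lt_def] at h2 ⊢
      simp only at h2
      omega))
    have h2 := h ⟨i + d, hlt⟩ (by rw [Fin.le_def]; simp) (by
      rw [Fin.lt_def]
      simp only [Fin.val_castSucc]
      omega)
    rw [bits, decide_eq_false_iff_not, not_lt] at h2
    have e1 : (⟨(i : ℕ) + d, hlt⟩ : Fin m).succ = j := Fin.ext (by simp; omega)
    have e2 : (⟨(i : ℕ) + d, hlt⟩ : Fin m).castSucc = ⟨i + d, by omega⟩ := rfl
    rw [e1, e2] at h2
    have h3 : r ⟨i + d, by omega⟩ ≤ r j := hr (by rw [Fin.le_def]; simp only; omega)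
    omega

theorem flat_of_eq {m : ℕ} (r : Fin (m + 1) → ℕ) (hr : Monotone r) (i j : Fin (m + 1))
    (h : r i = r j) (t : Fin m) (h1 : i ≤ t.castSucc) (h2 : t.castSucc < j) :
    bits r t = false := by
  rw [bits, decide_eq_false_iff_not, not_lt]
  have h3 : r i ≤ r t.castSucc := hr h1
  have h4 : r t.succ ≤ r j := hr (by
    rw [Fin.lt_def] at h2
    rw [Fin.le_def, Fin.val_succ]
    rw [Fin.val_castSucc] at h2
    omega)
  omega

theorem same_iff {m : ℕ} (r : Fin (m + 1) → ℕ) (hr : Monotone r)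
    (p : Fin (m + 1) × Fin (m + 1)) : r p.1 = r p.2 ↔ Same (bits r) p := by
  constructor
  · rintro h t (⟨h1, h2⟩ | ⟨h1, h2⟩)
    · exact flat_of_eq r hr p.1 p.2 h t h1 h2
    · exact flat_of_eq r hr p.2 p.1 h.symm t h1 h2
  · intro h
    rcases le_total p.1 p.2 with h1 | h1
    · rw [Fin.le_def] at h1
      exact eq_of_flat r hr p.1 (p.2 - p.1) p.2 (by omega) fun t h2 h3 => h t (Or.inl ⟨h2, h3⟩)
    · rw [Fin.le_def] at h1
      exact (eq_of_flat r hr p.2 (p.1 - p.2) p.1 (by omega)
        fun t h2 h3 => h t (Or.inr ⟨h2, h3⟩)).symm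

/-- The coefficients of `𝒬(𝒢_5)`, as a function of the sum of the squares of the exponents. -/
def V : ℕ → ℕ
  | 25 => 1
  | 17 => 4
  | 13 => 5
  | 11 => 11
  | 9 => 12
  | 7 => 24
  | 5 => 45
  | _ => 0

set_option maxRecDepth 100000

theorem N5_eq : ∀ s : Fin 4 → Bool, N5 s = V #{p : Fin 5 × Fin 5 | Same s p} := by
  decide +kernel

theorem quasi5_eq (a : ℕ →₀ ℕ) (ha : ∑ x ∈ a.support, a x = 5) :
    quasi (gridClass (signed sig eps) 5) a = ((V (∑ x ∈ a.support, a x * a x) : ℕ) : ℤ) := by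
  obtain ⟨r, hr, hc⟩ := Content.content_exists a ha
  rw [quasi_apply _ r hr a hc, count5, N5_eq, sum_sq r a hc]
  congr 3
  ext p
  rw [mem_filter, mem_filter, same_iff r hr]

theorem symm5 : IsSymmetric (quasi (gridClass (signed sig eps) 5)) := by
  intro σ a
  change quasi (gridClass (signed sig eps) 5) (a.equivMapDomain σ) =
    quasi (gridClass (signed sig eps) 5) a
  by_cases ha : ∑ x ∈ a.support, a x = 5
  · rw [quasi5_eq a ha, quasi5_eq _ (by rw [sum_sq_perm σ a (fun x => x)]; exact ha),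
      sum_sq_perm σ a (fun x => x * x)]
  · rw [quasi_zero _ a ha, quasi_zero _ _ (by rw [sum_sq_perm σ a (fun x => x)]; exact ha)]

theorem not_symm4 : ¬ IsSymmetric (quasi (gridClass (signed sig eps) 4)) := by
  intro h
  let r : Fin 4 → ℕ := ![0, 1, 1, 2]
  let r' : Fin 4 → ℕ := ![0, 1, 2, 2]
  have hr : Monotone r := by decide
  have hr' : Monotone r' := by decide
  have h1 := h (Equiv.swap 1 2) (∑ k, Finsupp.single (r k) 1)
  have h2 : (∑ k, Finsupp.single (r k) 1 : ℕ →₀ ℕ).equivMapDomain (Equiv.swap 1 2) =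
      ∑ k, Finsupp.single (r' k) 1 := by
    ext x
    rw [Finsupp.equivMapDomain_apply, Content.content_apply, Content.content_apply]
    by_cases h1 : x = 1
    · subst h1
      decide
    · by_cases h2 : x = 2
      · subst h2
        decide
      · rw [Equiv.symm_swap, Equiv.swap_apply_of_ne_of_ne h1 h2]
        congr 1
        ext v
        fin_cases v <;> simp [r, r'] <;> omega
  rw [h2] at h1
  change quasi (gridClass (signed sig eps) 4) (∑ k, Finsupp.single (r' k) 1) =
    quasi (gridClass (signed sig eps) 4) (∑ k, Finsupp.single (r k) 1) at h1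
  rw [quasi_apply _ r hr _ rfl, quasi_apply _ r' hr' _ rfl, count4, count4] at h1
  have e1 : N4 (bits r') = 10 := by decide +kernel
  have e2 : N4 (bits r) = 9 := by decide +kernel
  rw [e1, e2] at h1
  norm_num at h1

end H89GC
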